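import Mathlib
import Pool.Prelude.Def_F_cef2bd1b
import Pool.Agent.H172.EW.Odd

/-!
# Cube tilings: the exponent `1 / (4 √e)` for odd `n`

For large odd `n`, `c(n) ≤ n ^ ((1 / (4 √e) + ε) n)`, where `1 / (4 √e) = 0.1516...`; the same
bound holds for all large `n` such that every prime `p` with `p - 1 ∣ n` is at most
`n ^ (1 / (4 √e))`.
-/

set_option autoImplicit false

open Filter Topology N0a8789b9

namespace Pool.Agent.Results.MP_9df71a_co.BurgessExponent

/-- The least positive integer `c` such that every `k ≥ c` is admissible for `n`, that is, the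
unit cube of dimension `n` can be decomposed into `k` homothetic cubes. -/
noncomputable def cutoff (n : ℕ) : ℕ := sInf {c : ℕ | 1 ≤ c ∧ ∀ k, c ≤ k → Admissible n k}

/-- For every `ε > 0` and all large odd `n`, `log c(n) ≤ (1 / (4 √e) + ε) n log n`. More
generally, for all real numbers `θ ≥ 1 / (4 √e)` and `ε > 0`, if `n` is large and every prime `p`
with `p - 1 ∣ n` is at most `n ^ θ`, then `log c(n) ≤ (θ + ε) n log n`. -/
theorem result :
    (∀ ε : ℝ, 0 < ε → ∀ᶠ n : ℕ in atTop, Odd n →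
      Real.log (cutoff n) ≤ (1 / (4 * √(Real.exp 1)) + ε) * (n * Real.log n)) ∧
    (∀ θ ε : ℝ, 1 / (4 * √(Real.exp 1)) ≤ θ → 0 < ε → ∀ᶠ n : ℕ in atTop,
      (∀ p : ℕ, p.Prime → (p - 1) ∣ n → (p : ℝ) ≤ (n : ℝ) ^ θ) →
      Real.log (cutoff n) ≤ (θ + ε) * (n * Real.log n)) := by
  have hsq : √(Real.exp 1) = Real.exp (1 / 2) := by
    rw [Real.sqrt_eq_iff_mul_self_eq (Real.exp_pos _).le (Real.exp_pos _).le, ← Real.exp_add]
    norm_num
  rw [hsq]
  constructor
  · intro ε hε
    obtain ⟨N, hN⟩ := Pool.Agent.H172.EW.upper _ ε le_rfl hε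
    obtain ⟨N2, hN2⟩ := Pool.Agent.Y165.HN.large (1 / (4 * Real.exp (1 / 2))) (by positivity) 2
    filter_upwards [eventually_ge_atTop (max N N2)] with n hn hodd
    refine hN n ((le_max_left _ _).trans hn) ?_
    rw [Pool.Agent.H172.EW.PP_odd hodd]
    exact_mod_cast hN2 n ((le_max_right _ _).trans hn)
  · intro θ ε hθ hε
    obtain ⟨N, hN⟩ := Pool.Agent.H172.EW.upper θ ε hθ hε
    filter_upwards [eventually_ge_atTop (max N 1)] with n hn hP
    obtain ⟨hp, hd⟩ := Pool.Agent.H17HN.PP_mem (n := n) ((le_max_right _ _).trans hn)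
    exact hN n ((le_max_left _ _).trans hn) (hP _ hp hd)

end Pool.Agent.Results.MP_9df71a_co.BurgessExponent
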