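import Mathlib
import Pool.Prelude.Def_F_cef2bd1b
import Pool.Agent.H172.EW.Cut

/-!
# The cube-tiling threshold: `log c(n) / (n log n)` tends to zero on a set of density one

Q1 asks whether `log c(n) / (n log n)` has a finite limit. We show that it tends to `0` along a
set of integers `n` of natural density one. So the question is whether it also tends to zero on
the remaining integers, a set of density zero.

Proof. If the numbers `a ^ n - 1`, `2 ≤ a ≤ A`, have no common prime factor then every
`k ≥ (2 A) ^ n` is admissible (library). If `A ≥ n ^ (1 / m)` and there is a common prime factor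
`q`, then the smooth numbers below `q` are `n`-th roots of one modulo `q`, which gives
`q = k d + 1` with `d ∣ n`, `k ≤ K(m)` and `q > n ^ (1 / m)`. The set of such `n` has density zero;
for `K = 1` this is a theorem of Erdős and Wagstaff. We prove the general case for the primes
`q > n ^ (1 / m)` as follows. Let `P` be a large finite set of primes. For almost all `q` the
number `q - 1` has about `μ = ∑ 1 / p` prime factors in `P`, because the Brun-Titchmarsh inequality
shows that few of the primes `q` are in the exceptional classes modulo `∏ p`, and Turán's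
inequality shows that there are few exceptional classes. So for almost all pairs `(q, t)` the number
`n = d t` would have almost `2 μ` prime factors in `P` (with multiplicity), which is rare.
-/

set_option autoImplicit false

open Filter Topology N0a8789b9

namespace Pool.Agent.Results.MP_9df71a_co.DensityOne

/-- `c(n)`: the least positive integer `c` such that every `k ≥ c` is admissible for `n`, that is,
the unit cube of dimension `n` can be decomposed into `k` homothetic cubes. -/
noncomputable def cutoff (n : ℕ) : ℕ := sInf {c : ℕ | 1 ≤ c ∧ ∀ k, c ≤ k → Admissible n k}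

/-- There is a set `S` of integers of natural density one such that `log c(n) / (n log n)` tends to
zero as `n` tends to infinity in `S`. -/
theorem result : ∃ S : Set ℕ,
    Tendsto (fun N : ℕ => ((S ∩ Set.Icc 1 N).ncard : ℝ) / N) atTop (𝓝 1) ∧
    Tendsto (fun n : ℕ => Real.log (cutoff n) / (n * Real.log n)) (atTop ⊓ 𝓟 S) (𝓝 0) := by
  classical
  have h1 : ∀ i : ℕ, ∃ K N : ℕ, 1 ≤ K ∧ ∀ n : ℕ, N ≤ n → ¬ H172.EW.Bad (i + 1) K n →
      Real.log (H172.EW.cutoff n) ≤ 2 / ((i + 1 : ℕ) : ℝ) * (n * Real.log n) :=
    fun i => H172.EW.log_cutoff (i + 1) (by omega)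
  choose K N0 hK hlog using h1
  obtain ⟨T, hT1, hT2⟩ := H172.EW.diag (fun i => {n | H172.EW.Bad (i + 1) (K i) n}) (by
    intro i η hη
    obtain ⟨M, hM⟩ := H172.EW.density (i + 1) (K i) (by omega) (hK i) η hη
    refine ⟨M, fun N hN => ?_⟩
    refine le_trans (le_of_eq ?_) (hM N hN)
    congr)
  refine ⟨Tᶜ, ?_, ?_⟩
  · rw [Metric.tendsto_nhds]
    intro ε hε
    obtain ⟨M, hM⟩ := hT1 (ε / 2) (by positivity)
    filter_upwards [eventually_ge_atTop (max M 1)] with N hN
    have hN1 : 1 ≤ N := (le_max_right _ _).trans hN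
    have hNR : (0 : ℝ) < N := by exact_mod_cast hN1
    have h2 := hM N ((le_max_left _ _).trans hN)
    have h3 : ((Tᶜ ∩ Set.Icc 1 N).ncard : ℝ) =
        N - (((Finset.Ioc 0 N).filter fun n => n ∈ T).card : ℝ) := by
      have h4 : Tᶜ ∩ Set.Icc 1 N = (((Finset.Ioc 0 N).filter fun n => ¬ n ∈ T : Finset ℕ) : Set ℕ) := by
        ext n
        simp only [Set.mem_inter_iff, Set.mem_compl_iff, Set.mem_Icc, Finset.coe_filter,
          Finset.mem_Ioc, Set.mem_setOf_eq]
        constructor
        · rintro ⟨h, h5, h6⟩; exact ⟨⟨by omega, h6⟩, h⟩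
        · rintro ⟨⟨h5, h6⟩, h⟩; exact ⟨h, by omega, h6⟩
      rw [h4, Set.ncard_coe_finset]
      have h5 := Finset.card_filter_add_card_filter_not (s := Finset.Ioc 0 N) (fun n => n ∈ T)
      rw [Nat.card_Ioc, Nat.sub_zero] at h5
      have h6 : ((((Finset.Ioc 0 N).filter fun n => n ∈ T).card : ℝ) +
          (((Finset.Ioc 0 N).filter fun n => ¬ n ∈ T).card : ℝ)) = N := by exact_mod_cast h5
      linarith
    rw [h3, Real.dist_eq]
    have h7 : ((N : ℝ) - (((Finset.Ioc 0 N).filter fun n => n ∈ T).card : ℝ)) / N - 1 =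
        - ((((Finset.Ioc 0 N).filter fun n => n ∈ T).card : ℝ) / N) := by
      field_simp; ring
    rw [h7, abs_neg, abs_of_nonneg (by positivity)]
    have h8 : (((Finset.Ioc 0 N).filter fun n => n ∈ T).card : ℝ) / N ≤ ε / 2 := by
      rw [div_le_iff₀ hNR]; exact h2
    linarith
  · rw [Metric.tendsto_nhds]
    intro ε hε
    rw [eventually_inf_principal]
    obtain ⟨i, hi⟩ := exists_nat_gt (2 / ε)
    obtain ⟨M, hM⟩ := hT2 i
    filter_upwards [eventually_ge_atTop (max (max M (N0 i)) 2)] with n hn hnS
    have hn1 : M ≤ n := (le_max_left _ _).trans ((le_max_left _ _).trans hn)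
    have hn2 : N0 i ≤ n := (le_max_right _ _).trans ((le_max_left _ _).trans hn)
    have hn3 : 2 ≤ n := (le_max_right _ _).trans hn
    have hn2R : (2 : ℝ) ≤ n := by exact_mod_cast hn3
    have hpos : 0 < (n : ℝ) * Real.log n := mul_pos (by linarith) (Real.log_pos (by linarith))
    have h2 := hlog i n hn2 (hM n hn1 hnS)
    have h3 : Real.log (cutoff n) / (n * Real.log n) ≤ 2 / ((i + 1 : ℕ) : ℝ) := by
      rw [div_le_iff₀ hpos]; exact h2
    have h4 : 2 / ((i + 1 : ℕ) : ℝ) < ε := by
      have hi0 : (0 : ℝ) < ((i + 1 : ℕ) : ℝ) := by positivity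
      rw [div_lt_iff₀ hi0]
      rw [div_lt_iff₀ hε] at hi
      push_cast
      nlinarith
    have h5 : 0 ≤ Real.log (cutoff n) / (n * Real.log n) :=
      div_nonneg (Real.log_natCast_nonneg _) hpos.le
    rw [Real.dist_eq, sub_zero, abs_of_nonneg h5]
    exact h3.trans_lt h4

end Pool.Agent.Results.MP_9df71a_co.DensityOne
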