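import Mathlib
import Pool.Prelude.Def_F_cef2bd1b
import Pool.Agent.H172.EW.Exc

/-!
# Cube tilings: an upper bound for the cutoff with a sparse exceptional set

Let `P(n)` be the largest prime `p` with `p - 1 ∣ n`, and let `0 < η < 1`. For all but
`O(x ^ (1 - η))` of the integers `n ≤ x`, the cutoff `c(n)` is at most
`max (P(n), n ^ (η / (4 √e))) ^ n` up to a factor `n ^ (ε n)`. For odd `n` this is
`n ^ ((η / (4 √e) + ε) n)`.
-/

set_option autoImplicit false

open N0a8789b9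

namespace Pool.Agent.Results.MP_9df71a_co.RareExceptions

/-- The least positive integer `c` such that every `k ≥ c` is admissible for `n`, that is, the
unit cube of dimension `n` can be decomposed into `k` homothetic cubes. -/
noncomputable def cutoff (n : ℕ) : ℕ := sInf {c : ℕ | 1 ≤ c ∧ ∀ k, c ≤ k → Admissible n k}

/-- the largest prime `p` such that `p - 1` divides `n` -/
noncomputable def P (n : ℕ) : ℕ := sSup {p : ℕ | p.Prime ∧ (p - 1) ∣ n}

/-- Let `0 < η < 1` and `ε > 0`. For all but `O(x ^ (1 - η))` of the integers `1 ≤ n ≤ x`,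
`log c(n) ≤ n * max (log P(n)) (η / (4 √e) * log n) + ε * n log n`. For all but
`O(x ^ (1 - η))` of the odd integers `1 ≤ n ≤ x`, `log c(n) ≤ (η / (4 √e) + ε) * n log n`. -/
theorem result (η ε : ℝ) (hη0 : 0 < η) (hη1 : η < 1) (hε : 0 < ε) :
    (∃ C : ℝ, ∀ x : ℕ, 1 ≤ x →
      ({n : ℕ | 1 ≤ n ∧ n ≤ x ∧ ¬ Real.log (cutoff n) ≤
        n * max (Real.log (P n)) (η / (4 * √(Real.exp 1)) * Real.log n) +
          ε * (n * Real.log n)}.ncard : ℝ) ≤ C * (x : ℝ) ^ (1 - η)) ∧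
    (∃ C : ℝ, ∀ x : ℕ, 1 ≤ x →
      ({n : ℕ | 1 ≤ n ∧ n ≤ x ∧ Odd n ∧ ¬ Real.log (cutoff n) ≤
        (η / (4 * √(Real.exp 1)) + ε) * (n * Real.log n)}.ncard : ℝ) ≤
          C * (x : ℝ) ^ (1 - η)) := by
  have hsq : √(Real.exp 1) = Real.exp (1 / 2) := by
    rw [Real.sqrt_eq_iff_mul_self_eq (Real.exp_pos _).le (Real.exp_pos _).le, ← Real.exp_add]
    norm_num
  rw [hsq]
  exact ⟨Pool.Agent.H172.EW.rare _ η ε hη0 hη1 le_rfl hε,
    Pool.Agent.H172.EW.rare_odd η ε hη0 hη1 hε⟩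

end Pool.Agent.Results.MP_9df71a_co.RareExceptions
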